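import Pool.Agent.H46.VIO.Stmts
import Pool.Agent.H94.LH.Stmts

/-!
# EXC: at most `C X ^ (1 / 3 + ε)` abc triples of radical `≤ X` violate weak abc

Definitions and the statements of the modules.  Proofs in words: `/team-store/EXC_PLAN_helper46.md`
and the docstrings.  Module `XXX` is a theorem `xxx_thm (h1 : S_AAA) ... : S_XXX` in
`Pool/Agent/H<k>/EXC/XXX.lean` (import this file, namespace `Pool.EXC`).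
-/

set_option autoImplicit false

namespace Pool.EXC

open Finset Pool.Agent.H98.ABCR Pool.SHA Pool.ABY Pool.VIO

/-! ## Part A: energies of approximate relations -/

/-- GRA: `P` contains the pairs of vertices with a common neighbour.  (`|E| = ∑ √(d_b / d_a)
√(d_a / d_b)` and `∑_E d_b / d_a ≤ ∑_a max_{b ∈ N(a)} d_b ≤ |P|`.) -/
def S_GRA : Prop := ∀ (α β : Type) [DecidableEq α] [DecidableEq β] (E : Finset (α × β))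
  (P : Finset (α × α)) (Q : Finset (β × β)),
  (∀ a a' b, (a, b) ∈ E → (a', b) ∈ E → (a, a') ∈ P) →
  (∀ a b b', (a, b) ∈ E → (a, b') ∈ E → (b, b') ∈ Q) →
  E.card ^ 2 ≤ P.card * Q.card

/-- approximate relations: `R r` are the elements of height `≤ r` -/
structure Sys {G : Type} [CommGroup G] (R : ℝ → Set G) : Prop where
  one : ∀ r, 0 ≤ r → (1 : G) ∈ R r
  inv : ∀ r g, g ∈ R r → g⁻¹ ∈ R r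
  mul : ∀ r s g h, g ∈ R r → h ∈ R s → g * h ∈ R (r + s)

open Classical in
/-- pairs of `s`-tuples whose products are equal up to `R r` -/
noncomputable def EnS {G α : Type} [CommGroup G] (R : ℝ → Set G) (A : Finset α) (f : α → G)
    (s : ℕ) (r : ℝ) : Finset ((Fin s → α) × (Fin s → α)) :=
  ((Fintype.piFinset fun _ : Fin s => A) ×ˢ (Fintype.piFinset fun _ : Fin s => A)).filter
    (fun w => (∏ j, f (w.1 j)) * (∏ j, f (w.2 j))⁻¹ ∈ R r)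

/-- the energy -/
noncomputable def En {G α : Type} [CommGroup G] (R : ℝ → Set G) (A : Finset α) (f : α → G)
    (s : ℕ) (r : ℝ) : ℕ := (EnS R A f s r).card

/-- SPL: from GRA: edges between `(y, y') ∈ A ^ s × A ^ s` and `(z, z') ∈ B ^ s × B ^ s` -/
def S_SPL : Prop := ∀ (G : Type) [CommGroup G] (R : ℝ → Set G), Sys R →
  ∀ (α β : Type) (A : Finset α) (B : Finset β) (f : α → G) (g : β → G) (s : ℕ) (r : ℝ), 0 ≤ r →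
    (En R (A ×ˢ B) (fun w => f w.1 * g w.2) s r) ^ 2 ≤
      En R A f (2 * s) (2 * r) * En R B g (2 * s) (2 * r)

/-- KRF: partition of dyadic weights.  (Induction: remove an element of greatest `d`; all sums are
multiples of its weight.) -/
def S_KRF : Prop := ∀ (ι : Type) [DecidableEq ι] (S : Finset ι) (d : ι → ℕ) (D : ℕ),
  (∀ k ∈ S, D + 1 ≤ d k) → ∑ k ∈ S, (1 / 2 : ℝ) ^ d k ≤ (1 / 2) ^ D →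
  ∃ S1 ⊆ S, ∑ k ∈ S1, (1 / 2 : ℝ) ^ d k ≤ (1 / 2) ^ (D + 1) ∧
    ∑ k ∈ S \ S1, (1 / 2 : ℝ) ^ d k ≤ (1 / 2) ^ (D + 1)

/-- TRE: Hölder's inequality for energies, by SPL and KRF from the root of a binary tree; for a
subset `S` of the classes at depth `D` the bound is `∏ En_(2 ^ d k) ^ (2 ^ D / 2 ^ d k)` -/
def S_TRE : Prop := ∀ (G : Type) [CommGroup G] (R : ℝ → Set G), Sys R →
  ∀ (α : Type) (n : ℕ) (A : Fin n → Finset α) (f : Fin n → α → G) (d : Fin n → ℕ) (r : ℝ), 0 ≤ r →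
    ∑ k, (1 / 2 : ℝ) ^ d k ≤ 1 →
    (En R (Fintype.piFinset A) (fun y => ∏ k, f k (y k)) 1 r : ℝ) ≤
      ∏ k, (En R (A k) (f k) (2 ^ d k) (2 ^ d k * r) : ℝ) ^ ((1 / 2 : ℝ) ^ d k)

/-- NEX: depths.  (`2 ^ d k ∈ [3 / Γ k, 6 / Γ k)`, `Γ k = max (γ k) (1 / n)`.) -/
def S_NEX : Prop := ∀ (n : ℕ) (γ : Fin n → ℝ), 1 ≤ n → (∀ k, 0 ≤ γ k) → ∑ k, γ k ≤ 2 →
  ∃ d : Fin n → ℕ, ∑ k, (1 / 2 : ℝ) ^ d k ≤ 1 ∧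
    ∀ k, (2 : ℝ) ^ d k * γ k ≤ 6 ∧ (2 : ℝ) ^ d k ≤ 6 * n

/-! ## Part B: one class of exponents -/

open Classical in
/-- the class of `n` in the units of `ZMod q` -/
noncomputable def un (q n : ℕ) : (ZMod q)ˣ :=
  if h : n.Coprime q then ZMod.unitOfCoprime n h else 1

/-- the units with a representative `N / D` of height at most `r` -/
def Sml (q : ℕ) (r : ℝ) : Set (ZMod q)ˣ :=
  {u | ∃ N D : ℕ, 0 < N ∧ 0 < D ∧ N.Coprime q ∧ D.Coprime q ∧ Real.log N ≤ r ∧ Real.log D ≤ r ∧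
    u = un q N * (un q D)⁻¹}

open Classical in
/-- the integers prime to `q` of radical at most `Z` with all exponents in `E` -/
noncomputable def Cls (q : ℕ) (Z : ℝ) (E : Finset ℕ) : Finset ℕ :=
  (Finset.range (⌊Z⌋₊ ^ (E.sup id) + 1)).filter (fun n => 0 < n ∧ n.Coprime q ∧
    (rad n : ℝ) ≤ Z ∧ ∀ p ∈ n.primeFactors, n.factorization p ∈ E)

/-- CNT: (`∑_{r ≤ Z} L ^ ω (r)`, `S_OMB`) -/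
def S_CNT : Prop := ∀ (L : ℕ) (ε : ℝ), 0 < ε → ∃ C : ℝ, 1 ≤ C ∧
  ∀ (q : ℕ) (Z : ℝ) (E : Finset ℕ), 1 ≤ Z → E.card ≤ L →
    ((Cls q Z E).card : ℝ) ≤ C * Z ^ (1 + ε)

/-- quotient of the products of the radicals of two tuples -/
def wq {s : ℕ} (w : (Fin s → ℕ) × (Fin s → ℕ)) : ℚ :=
  (∏ j, (rad (w.1 j) : ℚ)) / ∏ j, (rad (w.2 j) : ℚ)

/-- DIW: few quotients.  See the page. -/
def S_DIW : Prop := ∀ c ε C0 : ℝ, 0 < c → c ≤ 1 → 0 < ε → ε ≤ 1 → 1 ≤ C0 → ∃ ζ τ : ℝ,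
  0 < ζ ∧ ζ ≤ 1 ∧ 0 < τ ∧ τ ≤ 1 ∧ ∀ e : ℝ, 0 < e → e ≤ C0 → ∃ κ0 X0 : ℝ, 1 ≤ κ0 ∧ 3 ≤ X0 ∧
  ∀ (X h0 Z : ℝ) (T : Finset ℕ) (x : ℕ → ℕ) (E : Finset ℕ) (s : ℕ), X0 ≤ X →
    κ0 * Real.log X ≤ h0 → 1 ≤ Z → Z ^ s ≤ X ^ 6 → (∀ t ∈ T, t.Prime ∧ 1 ≤ x t) →
    c * h0 ≤ ∑ t ∈ T, (x t : ℝ) * Real.log t → ∑ t ∈ T, (x t : ℝ) * Real.log t ≤ 2 * h0 →
    (∀ j ∈ E, e * (h0 / Real.log X) ≤ j ∧ (j : ℝ) ≤ (1 + ζ) * e * (h0 / Real.log X)) →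
    (((EnS (Sml (∏ t ∈ T, t ^ x t)) (Cls (∏ t ∈ T, t ^ x t) Z E) (un (∏ t ∈ T, t ^ x t)) s
      (τ * e * h0)).image wq).card : ℝ) ≤ ((∏ t ∈ T, t : ℕ) : ℝ) * X ^ ε

/-- DIT: few tuples with given quotient -/
def S_DIT : Prop := ∀ (s L : ℕ) (ε : ℝ), 0 < ε → ∃ C : ℝ, 1 ≤ C ∧
  ∀ (X Z : ℝ) (q : ℕ) (E : Finset ℕ) (ρ : ℚ), 1 ≤ X → 1 ≤ Z → Z ^ s ≤ X ^ 6 → E.card ≤ L →
    ((((Fintype.piFinset fun _ : Fin s => Cls q Z E) ×ˢ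
      (Fintype.piFinset fun _ : Fin s => Cls q Z E)).filter (fun w => wq w = ρ)).card : ℝ) ≤
      C * X ^ ε * ((Cls q Z E).card : ℝ) ^ s

/-- DIS: the energy of one class is diagonal -/
def S_DIS : Prop := ∀ c ε C0 : ℝ, 0 < c → c ≤ 1 → 0 < ε → ε ≤ 1 → 1 ≤ C0 → ∃ ζ τ : ℝ,
  0 < ζ ∧ ζ ≤ 1 ∧ 0 < τ ∧ τ ≤ 1 ∧ ∀ (e : ℝ) (S L : ℕ), 0 < e → e ≤ C0 → ∃ κ0 X0 : ℝ,
  1 ≤ κ0 ∧ 3 ≤ X0 ∧ ∀ (X h0 Z : ℝ) (T : Finset ℕ) (x : ℕ → ℕ) (E : Finset ℕ) (s : ℕ), X0 ≤ X →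
    κ0 * Real.log X ≤ h0 → 1 ≤ Z → Z ^ s ≤ X ^ 6 → s ≤ S → E.card ≤ L →
    (∀ t ∈ T, t.Prime ∧ 1 ≤ x t) →
    c * h0 ≤ ∑ t ∈ T, (x t : ℝ) * Real.log t → ∑ t ∈ T, (x t : ℝ) * Real.log t ≤ 2 * h0 →
    (∀ j ∈ E, e * (h0 / Real.log X) ≤ j ∧ (j : ℝ) ≤ (1 + ζ) * e * (h0 / Real.log X)) →
    (En (Sml (∏ t ∈ T, t ^ x t)) (Cls (∏ t ∈ T, t ^ x t) Z E) (un (∏ t ∈ T, t ^ x t)) s
      (τ * e * h0) : ℝ) ≤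
      ((∏ t ∈ T, t : ℕ) : ℝ) * X ^ ε * ((Cls (∏ t ∈ T, t ^ x t) Z E).card : ℝ) ^ s

/-- ENE: edges between the classes of two coordinates: GRA with `P`, `Q` the sets of pairs of
quotient in `Sml q ρ`, and TRE, NEX, DIS, CNT -/
def S_ENE : Prop := ∀ c ε C0 : ℝ, 0 < c → c ≤ 1 → 0 < ε → ε ≤ 1 → 1 ≤ C0 → ∃ ζ τ : ℝ,
  0 < ζ ∧ ζ ≤ 1 ∧ 0 < τ ∧ τ ≤ 1 ∧ ∀ (n L : ℕ) (e : Fin n → ℝ), 1 ≤ n →
  (∀ k, 0 < e k ∧ e k ≤ C0) → ∃ κ0 X0 : ℝ, 1 ≤ κ0 ∧ 3 ≤ X0 ∧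
  ∀ (X h0 ρ : ℝ) (T : Finset ℕ) (x : ℕ → ℕ) (E : Fin n → Finset ℕ) (A B : Fin n → ℝ)
    (W : Finset ((Fin n → ℕ) × (Fin n → ℕ))), X0 ≤ X → κ0 * Real.log X ≤ h0 →
    (∀ t ∈ T, t.Prime ∧ 1 ≤ x t) →
    c * h0 ≤ ∑ t ∈ T, (x t : ℝ) * Real.log t → ∑ t ∈ T, (x t : ℝ) * Real.log t ≤ 2 * h0 →
    (∀ k, (E k).card ≤ L ∧ ∀ j ∈ E k, e k * (h0 / Real.log X) ≤ j ∧
      (j : ℝ) ≤ (1 + ζ) * e k * (h0 / Real.log X)) →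
    (∀ k, 1 ≤ A k ∧ 1 ≤ B k) → ∏ k, A k ≤ X ^ 2 → ∏ k, B k ≤ X ^ 2 → 0 ≤ ρ →
    (∀ k, 6 * n * ρ ≤ τ * e k * h0) →
    (∀ w ∈ W, ∀ k, w.1 k ∈ Cls (∏ t ∈ T, t ^ x t) (A k) (E k) ∧
      w.2 k ∈ Cls (∏ t ∈ T, t ^ x t) (B k) (E k)) →
    (∀ y y' z, (y, z) ∈ W → (y', z) ∈ W →
      (∏ k, un (∏ t ∈ T, t ^ x t) (y k)) * (∏ k, un (∏ t ∈ T, t ^ x t) (y' k))⁻¹ ∈
        Sml (∏ t ∈ T, t ^ x t) ρ) →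
    (∀ y z z', (y, z) ∈ W → (y, z') ∈ W →
      (∏ k, un (∏ t ∈ T, t ^ x t) (z k)) * (∏ k, un (∏ t ∈ T, t ^ x t) (z' k))⁻¹ ∈
        Sml (∏ t ∈ T, t ^ x t) ρ) →
    (W.card : ℝ) ≤ ((∏ t ∈ T, t : ℕ) : ℝ) * X ^ ε * Real.sqrt ((∏ k, A k) * ∏ k, B k)

/-! ## Part C: one family -/

/-- DCM: decomposition of an integer `m`: known primes `H`, the parts `y k` with exponents rounded
down to the grid `E k` in `[Λ (1 + ζ) ^ k g, Λ (1 + ζ) ^ (k + 1) g]` (start `⌈Λ (1 + ζ) ^ k g⌉`,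
step `⌈δ g⌉`), and the rest `r` -/
def S_DCM : Prop := ∀ Λ ζ C0 : ℝ, 0 < Λ → Λ ≤ C0 → 0 < ζ → ζ ≤ 1 → ∃ n : ℕ, 1 ≤ n ∧
  (∀ k < n, Λ * (1 + ζ) ^ k ≤ C0) ∧ ∀ δ : ℝ, 0 < δ → ∃ L : ℕ, ∀ g : ℝ, 1 / δ ≤ g →
  ∃ E : Fin n → Finset ℕ,
    (∀ k : Fin n, (E k).card ≤ L ∧ ∀ j ∈ E k, Λ * (1 + ζ) ^ (k : ℕ) * g ≤ j ∧
      (j : ℝ) ≤ (1 + ζ) * (Λ * (1 + ζ) ^ (k : ℕ)) * g) ∧
    ∀ (m : ℕ) (H : Finset ℕ) (lam : ℝ), 0 < m → 0 ≤ lam → H ⊆ m.primeFactors →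
      (∀ p ∈ m.primeFactors, p ∉ H → (m.factorization p : ℝ) ≤ lam * g ∨
        (Λ * g ≤ m.factorization p ∧ (m.factorization p : ℝ) ≤ C0 * g)) →
      ∃ (y : Fin n → ℕ) (r : ℕ), 0 < r ∧
        m = (∏ p ∈ H, p ^ m.factorization p) * (∏ k, y k) * r ∧
        (∀ k, 0 < y k ∧ ∀ p ∈ (y k).primeFactors, (y k).factorization p ∈ E k) ∧
        (∀ k, (y k).primeFactors ⊆ m.primeFactors \ H) ∧ ∏ k, rad (y k) ≤ rad m ∧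
        Real.log r ≤ (lam + 2 * δ) * g * Real.log (rad m) ∧
        ∀ p ∈ m.primeFactors, p ∉ H → (∀ k, p ∉ (y k).primeFactors) →
          (m.factorization p : ℝ) ≤ lam * g

/-- ENF: the gap principle (`S_GPD`, `S_OMB`; the mass of `K` is at least `(2 + c / 8) hh v`) -/
def S_ENF : Prop := ∀ c ε : ℝ, 0 < c → c ≤ 1 → 0 < ε → ∃ κ0 X0 : ℝ, 1 ≤ κ0 ∧ 3 ≤ X0 ∧
  ∀ (X h0 : ℝ) (K : Finset ℕ) (i : Fin 3) (F : Finset (ℕ × ℕ)), X0 ≤ X →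
    κ0 * Real.log X ≤ h0 → (∀ v ∈ F, IsTri v ∧ (RR v : ℝ) ≤ X ∧ h0 ≤ hh v ∧ hh v ≤ 2 * h0 ∧
      K ⊆ (nn v).primeFactors ∧ c * h0 ≤ kl K (coord v i) ∧
      ∀ s, s ≠ i → Real.log (coord v s) - c / 16 * h0 ≤ kl K (coord v s)) →
    (F.card : ℝ) ≤ X ^ ε

/-- triples with known primes: `T` in the coordinate `i`, `H s` in the coordinate `s ≠ i`; the
exponents of the other primes of the coordinates `s ≠ i` are `≤ lam G` or in `[Λ G, C0 G]`,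
`G = h0 / log X` -/
structure FamE (X h0 lam Λ C0 : ℝ) (T : Finset ℕ) (x : ℕ → ℕ) (H : Fin 3 → Finset ℕ) (i : Fin 3)
    (v : ℕ × ℕ) : Prop where
  tri : IsTri v
  rad : (RR v : ℝ) ≤ X
  lo : h0 ≤ hh v
  up : hh v ≤ 2 * h0
  dT : ∀ t ∈ T, t ^ x t ∣ coord v i
  sH : ∀ s, s ≠ i → H s ⊆ (coord v s).primeFactors
  ex : ∀ s, s ≠ i → ∀ p ∈ (coord v s).primeFactors, p ∉ H s →
    ((coord v s).factorization p : ℝ) ≤ lam * (h0 / Real.log X) ∨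
    (Λ * (h0 / Real.log X) ≤ (coord v s).factorization p ∧
      ((coord v s).factorization p : ℝ) ≤ C0 * (h0 / Real.log X))

/-- ENY: one scale, known exponents up to `lam h0` -/
def S_ENY : Prop := ∀ c ε C0 : ℝ, 0 < c → c ≤ 1 → 0 < ε → ε ≤ 1 → 1 ≤ C0 →
  ∀ Λ : ℝ, 0 < Λ → Λ ≤ 1 → ∃ lam κ0 X0 : ℝ, 0 < lam ∧ lam < Λ ∧ 1 ≤ κ0 ∧ 3 ≤ X0 ∧
  ∀ (X h0 Z : ℝ) (T : Finset ℕ) (x : ℕ → ℕ) (H : Fin 3 → Finset ℕ) (i : Fin 3)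
    (F : Finset (ℕ × ℕ)), X0 ≤ X → κ0 * Real.log X ≤ h0 → 1 ≤ Z → (∀ t ∈ T, t.Prime ∧ 1 ≤ x t) →
    c * h0 ≤ ∑ t ∈ T, (x t : ℝ) * Real.log t →
    (∀ v ∈ F, FamE X h0 lam Λ C0 T x H i v) →
    (∀ v ∈ F, ∏ s ∈ univ.erase i, (rad (coord v s) : ℝ) ≤ Z) →
    (∀ v ∈ F, ∀ v' ∈ F, ∀ s, s ≠ i → ∑ p ∈ H s,
      |((coord v s).factorization p : ℝ) - (coord v' s).factorization p| * Real.log p ≤
        lam * h0) →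
    (F.card : ℝ) ≤ ((∏ t ∈ T, t : ℕ) : ℝ) * X ^ ε * Real.sqrt Z

/-- ENX: few triples with known primes `T` of positive weight in the coordinate `i`: the square
root of the number of pairs of radicals of the two other coordinates -/
def S_ENX : Prop := ∀ c ε : ℝ, 0 < c → c ≤ 1 → 0 < ε → ε ≤ 1 → ∃ κ0 X0 : ℝ, 1 ≤ κ0 ∧ 3 ≤ X0 ∧
  ∀ (X h0 Z : ℝ) (T : Finset ℕ) (i : Fin 3) (F : Finset (ℕ × ℕ)), X0 ≤ X →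
    κ0 * Real.log X ≤ h0 → 1 ≤ Z → (∀ v ∈ F, IsTri v ∧ (RR v : ℝ) ≤ X ∧ h0 ≤ hh v ∧
      hh v ≤ 2 * h0 ∧ T ⊆ (coord v i).primeFactors ∧ c * h0 ≤ kl T (coord v i) ∧
      ∏ s ∈ univ.erase i, (rad (coord v s) : ℝ) ≤ Z) →
    (F.card : ℝ) ≤ ((∏ t ∈ T, t : ℕ) : ℝ) * X ^ ε * Real.sqrt Z

/-! ## Part D: the real place -/

/-- PZ1: `S_PZR` for `z = 1` and every `g` -/
def S_PZ1 : Prop := ∀ (g M n : ℕ) (b B : ℝ) (Nt Dt W1 W2 : ℕ) (U V : ℝ),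
  2 ≤ g → 1 ≤ M → M ≤ g → 2 ≤ n → Pool.LH.ApR g 1 b B Nt Dt W1 W2 →
  (Nt ≠ Dt ∨ W1 ≠ W2) → 1 ≤ b → 1 ≤ B → B ≤ b * (M * n) → 0 ≤ U → 0 ≤ V →
  (Nt : ℝ) ≤ Real.exp U → (Dt : ℝ) ≤ Real.exp U → (W1 : ℝ) ≤ Real.exp V → (W2 : ℝ) ≤ Real.exp V →
  B ≤ 100 * ((M : ℝ) * n) * Real.log (6 * g) + 4 * n * U + M * V + M

/-- RNX: few triples with one tiny coordinate and two heavy primes.  See the page. -/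
def S_RNX : Prop := ∀ ε : ℝ, 0 < ε → ε ≤ 1 → ∃ lam κ0 X0 ε2 : ℝ, 0 < lam ∧ lam ≤ 1 / 4 ∧
  1 ≤ κ0 ∧ 3 ≤ X0 ∧ 0 < ε2 ∧ ∀ (X h0 : ℝ) (i j k : Fin 3) (F : Finset (ℕ × ℕ)), X0 ≤ X →
    κ0 * Real.log X ≤ h0 → h0 ≤ X ^ ε2 → i ≠ j → i ≠ k → j ≠ k →
    (∀ v ∈ F, IsTri v ∧ (RR v : ℝ) ≤ X ∧ h0 ≤ hh v ∧ hh v ≤ 2 * h0 ∧
      Real.log (coord v i) ≤ lam * h0 ∧
      (∃ p ∈ (coord v j).primeFactors, X ^ (1 / 4 : ℝ) < p ∧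
        Real.log (coord v j) - lam * h0 ≤ ((coord v j).factorization p : ℝ) * Real.log p) ∧
      ∃ p ∈ (coord v k).primeFactors, X ^ (1 / 4 : ℝ) < p ∧
        Real.log (coord v k) - lam * h0 ≤ ((coord v k).factorization p : ℝ) * Real.log p) →
    (F.card : ℝ) ≤ X ^ ε

/-! ## Part E: the count -/

/-- RCT: greedy choice (`S_GRL` with `θ = 1 - ν / 2`, complement) -/
def S_RCT : Prop := ∀ (ν X : ℝ) (n : ℕ) (S : Finset ℕ), 0 < ν → ν ≤ 1 → 3 ≤ X → 0 < n →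
  (rad n : ℝ) ≤ X → S ⊆ n.primeFactors → (∀ q ∈ S, (q : ℝ) ≤ X ^ (ν / 2)) →
  ∃ T ⊆ S, ((∏ q ∈ T, q : ℕ) : ℝ) ≤ X ^ ν ∧ ν / 2 * kl S n ≤ kl T n

/-- XCH: choice of the known primes of one triple.  See the page. -/
def S_XCH : Prop := ∀ (ν cH l : ℝ) (lm : ℕ → ℝ), 0 < ν → ν ≤ 1 → 0 < cH →
  (∀ m, 0 < lm (m + 1) ∧ lm (m + 1) ≤ lm m) → 2 * cH / ν + lm 0 ≤ l → l ≤ 1 / 4 →
  ∀ (X h0 : ℝ) (v : ℕ × ℕ), 3 ≤ X → 4 ≤ h0 → IsTri v → (RR v : ℝ) ≤ X → h0 ≤ hh v →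
    hh v ≤ 2 * h0 →
    (∃ m < 4, ∃ (i : Fin 3), ∃ T ⊆ (coord v i).primeFactors,
      ((∏ q ∈ T, q : ℕ) : ℝ) ≤ X ^ ν ∧ ν / 2 * lm m * h0 ≤ kl T (coord v i) ∧
      ∏ s ∈ univ.erase i, (rad (coord v s) : ℝ) ≤ X ^ (2 / 3 : ℝ)) ∨
    (∃ m < 4, ∃ (i : Fin 3), ∃ K ⊆ (nn v).primeFactors,
      ((∏ q ∈ K, q : ℕ) : ℝ) ≤ X ^ (1 / 3 + ν) ∧ ν / 2 * lm m * h0 ≤ kl K (coord v i) ∧
      lig X (ν / 2) K i v ≤ 2 * lm (m + 1) * h0) ∨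
    (∃ (i : Fin 3), ∃ p ∈ (coord v i).primeFactors, (p : ℝ) ≤ X ^ (1 / 3 : ℝ) ∧
      cH * h0 ≤ ((coord v i).factorization p : ℝ) * Real.log p ∧
      lig X (ν / 2) {p} i v ≤ 2 * lm 0 * h0) ∨
    (∃ i j k : Fin 3, i ≠ j ∧ i ≠ k ∧ j ≠ k ∧ Real.log (coord v i) ≤ l * h0 ∧
      (∃ p ∈ (coord v j).primeFactors, X ^ (1 / 4 : ℝ) < p ∧
        Real.log (coord v j) - l * h0 ≤ ((coord v j).factorization p : ℝ) * Real.log p) ∧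
      ∃ p ∈ (coord v k).primeFactors, X ^ (1 / 4 : ℝ) < p ∧
        Real.log (coord v k) - l * h0 ≤ ((coord v k).factorization p : ℝ) * Real.log p)

/-- XDY: one dyadic range of heights (`ν = ε / 8`; `S_RNX (ε / 2)` gives `l`; `cH = ν l / 4`;
`S_LPF` with `(cH, ν / 2, ε / 4)` and `(ν lm m / 2, ν / 2, ε / 4)` gives `lm`; bounded `X`:
`S_ALL`) -/
def S_XDY : Prop := ∀ ε : ℝ, 0 < ε → ε ≤ 1 → ∃ κ0 C ε2 : ℝ, 1 ≤ κ0 ∧ 1 ≤ C ∧ 0 < ε2 ∧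
  ∀ (X h0 : ℝ) (F : Finset (ℕ × ℕ)), 1 ≤ X → κ0 * (1 + Real.log X) ≤ h0 → h0 ≤ X ^ ε2 →
    (∀ v ∈ F, IsTri v ∧ (RR v : ℝ) ≤ X ∧ h0 ≤ hh v ∧ hh v ≤ 2 * h0) →
    (F.card : ℝ) ≤ C * X ^ (1 / 3 + ε)

/-- XAL: all heights (`hh v ≥ X ^ ε2`: `Pool.LH`) -/
def S_XAL : Prop := ∀ ε : ℝ, 0 < ε → ε ≤ 1 → ∃ κ C : ℝ, 1 ≤ κ ∧ 1 ≤ C ∧
  ∀ (X : ℝ) (F : Finset (ℕ × ℕ)), 1 ≤ X →
    (∀ v ∈ F, IsTri v ∧ (RR v : ℝ) ≤ X ∧ κ * (1 + Real.log X) ≤ hh v) →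
    (F.card : ℝ) ≤ C * X ^ (1 / 3 + ε)

/-- XFI: final statement (dyadic in the radical), `Exc` of VIO: all but `C X ^ (1 / 3 + ε)` triples
of radical `≤ X` satisfy `a + b ≤ rad ^ κ` -/
def S_XFI : Prop := ∀ ε : ℝ, 0 < ε → ∃ κ C : ℝ, ∀ X : ℝ, 1 ≤ X →
  (Exc κ X).Finite ∧ ((Exc κ X).ncard : ℝ) ≤ C * X ^ (1 / 3 + ε)

end Pool.EXC
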