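import Pool.Agent.H94.LH.All
import Pool.Agent.H50.LH.LCO

/-! # EXC: the large heights (`S_LCO` from `S_LAR2`) -/

set_option autoImplicit false

namespace Pool.EXC

open Finset Pool.Agent.H98.ABCR Pool.SHA Pool.LH

theorem unb_of_gp {v : ℕ × ℕ} (h : IsTri v) {Y ε : ℝ} (hε : ε ≤ 1 / 2) (i : Fin 3)
    (hi : (gp (coord v i) : ℝ) ≤ Y) : Unb ε Y v := by
  have hh0 : 0 ≤ hh v := Real.log_natCast_nonneg _
  by_cases hc : Real.log ((min v.1 v.2 : ℕ) : ℝ) ≤ (1 - ε) * hh v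
  · exact Or.inl hc
  · right
    push Not at hc
    have h4 := lc2_log_le h i hi
    have h5 : Real.log ((min v.1 v.2 : ℕ) : ℝ) ≤ Real.log (coord v i) := by
      have h6 : 0 < min v.1 v.2 := lt_min h.1 h.2.1
      refine Real.log_le_log (by exact_mod_cast h6) ?_
      exact_mod_cast lc2_min_le i
    nlinarith

theorem all_LAR : Pool.LH.S_LAR := by
  intro ε hε
  obtain ⟨C, hC1, hC⟩ := all_LAR2 (min ε (1 / 2)) (lt_min hε (by norm_num))
    ((min_le_right _ _).trans (by norm_num))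
  refine ⟨C, hC1, fun X Y F hX hY hF => ?_⟩
  have hX0 : (0 : ℝ) < X := by linarith
  have h1 := hC X Y F hX hY fun v hv => by
    obtain ⟨hv1, hv2, ⟨i, hi⟩, hv4⟩ := hF v hv
    exact ⟨hv1, hv2, unb_of_gp hv1 (min_le_right _ _) i hi, hv4⟩
  refine h1.trans ?_
  have h2 : X ^ (min ε (1 / 2)) ≤ X ^ ε :=
    Real.rpow_le_rpow_of_exponent_le hX (min_le_left ε (1 / 2))
  exact mul_le_mul_of_nonneg_left h2 (by positivity)

theorem all_LCO : Pool.LH.S_LCO := lco_thm all_LAR Pool.FEX.omb_thm all_TOT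

end Pool.EXC
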