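import Pool.Agent.H10.ABY.All
import Pool.Agent.H2.EXC.PZ1
import Pool.Agent.H2.EXC.XAL
import Pool.Agent.H2.FEX.OMB
import Pool.Agent.H23.EXC.ENF
import Pool.Agent.H25.EXC.ENY
import Pool.Agent.H3.EXC.ENX
import Pool.Agent.H34.EXC.XCH
import Pool.Agent.H36.EXC.XFI
import Pool.Agent.H37.EXC.DIW
import Pool.Agent.H40.EXC.XDY
import Pool.Agent.H42.LH.MIN
import Pool.Agent.H44.EXC.GRA
import Pool.Agent.H46.EXC.LCO
import Pool.Agent.H46.VIO.All
import Pool.Agent.H48.EXC.RNX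
import Pool.Agent.H62.EXC.TRE
import Pool.Agent.H70.EXC.DIT
import Pool.Agent.H70.EXC.SPL
import Pool.Agent.H71.EXC.KRF
import Pool.Agent.H88.EXC.ENE
import Pool.Agent.H9.EXC.DIS
import Pool.Agent.H9.EXC.RCT
import Pool.Agent.H91.EXC.NEX
import Pool.Agent.H97.EXC.DCM
import Pool.Agent.H99.EXC.CNT

/-! # EXC: assembly of Theorem X -/

set_option autoImplicit false

namespace Pool.EXC

open Pool.Agent.H98.ABCR Pool.SHA Pool.ABY Pool.VIO

theorem all_SPL : S_SPL := spl_thm gra_thm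

theorem all_TRE : S_TRE := tre_thm all_SPL krf_thm

theorem all_CNT : S_CNT := cnt_thm Pool.FEX.omb_thm

theorem all_DIS : S_DIS := dis_thm (diw_thm tsl_thm gch_thm) (dit_thm Pool.FEX.omb_thm)

theorem all_ENE : S_ENE := ene_thm gra_thm all_TRE nex_thm all_DIS all_CNT

theorem all_ENY : S_ENY := eny_thm all_ENE dcm_thm (enf_thm gpd_thm Pool.FEX.omb_thm)

theorem all_ENX : S_ENX := enx_thm all_ENY all_PAT Pool.FEX.omb_thm

theorem all_RNX : S_RNX := rnx_thm all_LPF dir_thm pz1_thm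

theorem all_RCT : S_RCT := rct_thm grl_thm

theorem all_XDY : S_XDY := xdy_thm (xch_thm all_RCT) all_ENX all_LPF all_RNX all_ALL

theorem all_XAL : S_XAL := xal_thm all_XDY all_LCO Pool.LH.min_thm

/-- THEOREM X -/
theorem all_XFI : S_XFI := xfi_thm all_XAL

end Pool.EXC
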