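import Pool.Agent.H18.EXC.YCH
import Pool.Agent.H18.EXC.YDY
import Pool.Agent.H23.EXC.RTX
import Pool.Agent.H46.EXC.All
import Pool.Agent.H62.EXC.RLP
import Pool.Agent.H70.EXC.YAL
import Pool.Agent.H78.EXC.YFI

/-! # EXC: assembly of Theorem X with the parameter `Y` -/

set_option autoImplicit false

namespace Pool.EXC

open Pool.Agent.H98.ABCR Pool.SHA Pool.ABY Pool.VIO

theorem all_RTX : S_RTX := rtx_thm pz1_thm dir_thm all_PAT hgt_thm

theorem all_RLP : S_RLP := rlp_thm all_RTX gpd_thm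

theorem all_YDY : S_YDY := ydy_thm (ych_thm all_RCT) all_ENX all_LPF all_RLP all_ALL

theorem all_YAL : S_YAL := yal_thm all_YDY all_LCO

/-- THEOREM X with the parameter `Y` -/
theorem all_YFI : S_YFI := yfi_thm all_YAL

end Pool.EXC
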