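import Pool.Agent.H46.EXC.Stmts

/-!
# EXC, second part: at most `C X ^ ε (X Y) ^ (1 / 4)` abc triples of radical `≤ X` with one of the
three radicals `≤ Y` violate weak abc

(All triples: `Y = X ^ (1 / 3)`.)  Twins of the rows XCH, XDY, XAL, XFI with the parameter `Y`, and
RTX, RLP: twins of TSX, LPF of VIO with the real place in the place of the known primes of the
coordinate `i`.  Module `XXX` is a theorem `xxx_thm (h1 : S_AAA) ... : S_XXX` in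
`Pool/Agent/H<k>/EXC/XXX.lean` (import this file, namespace `Pool.EXC`).
-/

set_option autoImplicit false

namespace Pool.EXC

open Finset Pool.Agent.H98.ABCR Pool.SHA Pool.ABY Pool.VIO

/-- a triple of height about `h0` with known primes `K` whose coordinate `i` is at most
`exp (hh v / 2)`; the unknown primes `≤ X ^ η` of the two other coordinates have weight `≤ lam` -/
structure FamR (X h0 η lam : ℝ) (K : Finset ℕ) (i : Fin 3) (v : ℕ × ℕ) : Prop where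
  tri : IsTri v
  rad : (RR v : ℝ) ≤ X
  lo : h0 ≤ hh v
  up : hh v ≤ 2 * h0
  sub : K ⊆ (nn v).primeFactors
  sm : Real.log (coord v i) ≤ hh v / 2
  lg : lig X η K i v ≤ lam * h0

/-- RTX: few triples with private primes and one small coordinate `i` (the real place).
`j, k ≠ i`, `L = log X`, `G = h0 / L`, `μ = 1 / 1000`, `θ = ε μ / 30000`; `S_DIR` with
`⌈1 / η⌉ + 1` and `θ` gives `Q`; `lam = ε μ / (20000 Q)`, `δ = ε μ / (10000 Q)` (for `S_PAT`),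
`ε2 = ε / 10 ^ 6`.  For `v`: `q ≤ Q` and `μ v p = n` with `|q e_p / G - n| ≤ θ` at the unknown
primes `p > X ^ η` of the coordinates `≠ i`, `0` at all other primes; `g = ⌊G / q⌋`:
`rst g (μ v) ≤ 2 θ h0 / q + lam h0`.  `u v = log rt j v - log rt k v`, `|u| ≤ 3 q L`.  If
`X ^ ε < F.card`: two elements `v1 ≠ v2` with the same `q`, the same class of `S_PAT`, and
`|u v1 - u v2| ≤ exp (-(ε / 4) L)`.  `S_HGT` with `A = {v1}`, `B = {v2}`: `N, D`; `S_PZ1` with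
`Nt = D`, `Dt = N`, `W1 = rt j v1 * rt k v2`, `W2 = rt k v1 * rt j v2`: `rel` is
`|l1 - l2| ≤ exp (-h0 / 4)` for `l = log coord j - log coord k`, `b = (ε / 8) L`, `B = h0 / 4`,
`M = ⌊μ g⌋`, `n = ⌈8 q / (ε μ)⌉ + 2`, `U = 8 θ h0 / q + 4 lam h0 + 2 δ h0`, `V = 6 q L`.  Nontrivial
because of the private prime of `v1`. -/
def S_RTX : Prop := ∀ η ε : ℝ, 0 < η → η ≤ 1 → 0 < ε → ε ≤ 1 → ∃ lam κ0 X0 ε2 : ℝ,
  0 < lam ∧ 1 ≤ κ0 ∧ 3 ≤ X0 ∧ 0 < ε2 ∧ ∀ (X h0 : ℝ) (K : Finset ℕ) (i : Fin 3)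
    (F : Finset (ℕ × ℕ)), X0 ≤ X → κ0 * Real.log X ≤ h0 → h0 ≤ X ^ ε2 →
    (∀ v ∈ F, FamR X h0 η lam K i v) → Priv K i F → (F.card : ℝ) ≤ X ^ ε

/-- RLP: few triples with known small primes and one small coordinate.  (Copy of
H91/VIO/LPF.lean: `S_RTX` for `S_TSX`; if there are no unknown large primes, `S_GPD` with the real
place: `i` is not the coordinate `a + b`, `hh v - log min (a, b) ≥ hh v / 2`, the mass is at least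
`(5 / 2) hh v - log 2 - lam h0`.) -/
def S_RLP : Prop := ∀ η ε : ℝ, 0 < η → η ≤ 1 → 0 < ε → ε ≤ 1 → ∃ lam κ0 X0 ε2 : ℝ,
  0 < lam ∧ 1 ≤ κ0 ∧ 3 ≤ X0 ∧ 0 < ε2 ∧ ∀ (X h0 : ℝ) (K : Finset ℕ) (i : Fin 3)
    (F : Finset (ℕ × ℕ)), X0 ≤ X → κ0 * Real.log X ≤ h0 → h0 ≤ X ^ ε2 →
    (∀ v ∈ F, FamR X h0 η lam K i v) → (F.card : ℝ) ≤ X ^ ε

/-- YCH: choice of the known primes of one triple (`S_RCT`).  `w s` = weight of the primes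
`≤ X ^ (ν / 2)` of the coordinate `s` divided by `h0`; `m < 4` with no `w s` in
`[lm (m + 1), lm m)`; `R` = the `s` with `w s ≥ lm m`; `σ` a coordinate of radical `≤ Y`.
`R` everything: first alternative at the coordinate of greatest radical.  `R = {σ, i}`: second, with
`T` and all primes `≤ X ^ (ν / 2)` of the coordinate `σ`.  `R` = the two others: first, at the one of
greater radical.  `R = {i}`: second.  `R` empty: heavy prime (`> X ^ (ν / 2)`, weight `≥ cH h0`) in the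
coordinate `σ`: third; otherwise its weight is `≤ (2 / ν) cH h0 + lm 0 h0`: fourth. -/
def S_YCH : Prop := ∀ (ν cH l : ℝ) (lm : ℕ → ℝ), 0 < ν → ν ≤ 1 → 0 < cH →
  (∀ m, 0 < lm (m + 1) ∧ lm (m + 1) ≤ lm m) → 2 * cH / ν + lm 0 ≤ l →
  ∀ (X Y h0 : ℝ) (v : ℕ × ℕ), 3 ≤ X → 1 ≤ Y → Y ^ 3 ≤ X → 4 ≤ h0 → IsTri v → (RR v : ℝ) ≤ X →
    SmallY Y v → h0 ≤ hh v → hh v ≤ 2 * h0 →
    (∃ m < 4, ∃ (i : Fin 3), ∃ T ⊆ (coord v i).primeFactors,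
      ((∏ q ∈ T, q : ℕ) : ℝ) ≤ X ^ ν ∧ ν / 2 * lm m * h0 ≤ kl T (coord v i) ∧
      ∏ s ∈ univ.erase i, (rad (coord v s) : ℝ) ≤ Real.sqrt (X * Y)) ∨
    (∃ m < 4, ∃ (i : Fin 3), ∃ K ⊆ (nn v).primeFactors,
      ((∏ q ∈ K, q : ℕ) : ℝ) ≤ Y * X ^ ν ∧ ν / 2 * lm m * h0 ≤ kl K (coord v i) ∧
      lig X (ν / 2) K i v ≤ 2 * lm (m + 1) * h0) ∨
    (∃ (i : Fin 3), ∃ p ∈ (coord v i).primeFactors, (p : ℝ) ≤ Y ∧
      cH * h0 ≤ ((coord v i).factorization p : ℝ) * Real.log p ∧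
      lig X (ν / 2) {p} i v ≤ 2 * lm 0 * h0) ∨
    (∃ i : Fin 3, Real.log (coord v i) ≤ l * h0 ∧ lig X (ν / 2) ∅ i v ≤ 2 * lm 0 * h0)

/-- YDY: one dyadic range of heights (`ν = ε / 8`, `l = 1 / 4`, `cH = ν / 16`; `S_LPF` with
`(cH, ν / 2, ε / 4)` and `(ν lm m / 2, ν / 2, ε / 4)`, `S_RLP` with `(ν / 2, ε / 2)`, `S_ENX` with
`(ν lm m / 2, ε / 4)` and `Z = √(X Y)`; `Y ≤ (X Y) ^ (1 / 4)`; bounded `X`: `S_ALL`) -/
def S_YDY : Prop := ∀ ε : ℝ, 0 < ε → ε ≤ 1 → ∃ κ0 C ε2 : ℝ, 1 ≤ κ0 ∧ 1 ≤ C ∧ 0 < ε2 ∧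
  ∀ (X Y h0 : ℝ) (F : Finset (ℕ × ℕ)), 1 ≤ X → 1 ≤ Y → Y ^ 3 ≤ X →
    κ0 * (1 + Real.log X) ≤ h0 → h0 ≤ X ^ ε2 →
    (∀ v ∈ F, IsTri v ∧ (RR v : ℝ) ≤ X ∧ SmallY Y v ∧ h0 ≤ hh v ∧ hh v ≤ 2 * h0) →
    (F.card : ℝ) ≤ C * X ^ ε * (X * Y) ^ (1 / 4 : ℝ)

/-- YAL: all heights (`hh v ≥ X ^ ε2`: `Pool.LH.S_LCO`, a coordinate of radical `≤ Y` has greatest
prime factor `≤ Y`; `Y ^ 3 > X`: every triple is in `SmallY (X ^ (1 / 3))`) -/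
def S_YAL : Prop := ∀ ε : ℝ, 0 < ε → ε ≤ 1 → ∃ κ C : ℝ, 1 ≤ κ ∧ 1 ≤ C ∧
  ∀ (X Y : ℝ) (F : Finset (ℕ × ℕ)), 1 ≤ X → 1 ≤ Y →
    (∀ v ∈ F, IsTri v ∧ (RR v : ℝ) ≤ X ∧ SmallY Y v ∧ κ * (1 + Real.log X) ≤ hh v) →
    (F.card : ℝ) ≤ C * X ^ ε * (X * Y) ^ (1 / 4 : ℝ)

/-- the triples of `Exc κ X` one of whose radicals is at most `Y` -/
def ExcY (κ X Y : ℝ) : Set (ℕ × ℕ) :=
  {t | t ∈ Exc κ X ∧ (((∏ p ∈ t.1.primeFactors, p : ℕ) : ℝ) ≤ Y ∨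
    ((∏ p ∈ t.2.primeFactors, p : ℕ) : ℝ) ≤ Y ∨ ((∏ p ∈ (t.1 + t.2).primeFactors, p : ℕ) : ℝ) ≤ Y)}

/-- YFI: final statement (dyadic in the radical; the second part is `Y = X ^ (1 / 3)`) -/
def S_YFI : Prop := ∀ ε : ℝ, 0 < ε → ∃ κ C : ℝ, ∀ X : ℝ, 1 ≤ X → (Exc κ X).Finite ∧
  (∀ Y : ℝ, 1 ≤ Y → ((ExcY κ X Y).ncard : ℝ) ≤ C * X ^ (1 / 4 + ε) * Y ^ (1 / 4 : ℝ)) ∧
  ((Exc κ X).ncard : ℝ) ≤ C * X ^ (1 / 3 + ε)

end Pool.EXC
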